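import Pool.Agent.MP_e9afb0_an.Eberlein

/-!
# An Eberlein dual ball of `C(K)` without dense finitely supported points

The definitions below are those of the problem file. `DualBall X` is the closed unit ball of the
dual space with the weak* topology.
-/

set_option autoImplicit false

open Set Topology

universe u

namespace Pool.Agent.Results.MP_e9afb0_an.EberleinDualBall

/-- `K_X = (B_{X^*}, w^*)` -/
def DualBall (X : Type) [NormedAddCommGroup X] [NormedSpace ℝ X] : Type :=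
  ↥(WeakDual.toStrongDual ⁻¹' Metric.closedBall (0 : StrongDual ℝ X) 1 : Set (WeakDual ℝ X))

noncomputable instance (X : Type) [NormedAddCommGroup X] [NormedSpace ℝ X] : TopologicalSpace (DualBall X) :=
  instTopologicalSpaceSubtype

/-- `c₀(Γ)` in the cube or in `ℝ^Γ` -/
def c0 (Γ : Type u) : Set (Γ → ℝ) := {x | ∀ ε > 0, {γ | ε < |x γ|}.Finite}

/-- `c₀₀(Γ)` -/
def c00 (Γ : Type u) : Set (Γ → ℝ) := {x | {γ | x γ ≠ 0}.Finite}

/-- semi-Eberlein: an embedding in a cube with dense `c₀` part -/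
def SemiEberlein (K : Type) [TopologicalSpace K] : Prop :=
  ∃ (Γ : Type) (ψ : K → (Γ → ℝ)), IsEmbedding ψ ∧ (∀ k γ, ψ k γ ∈ Icc (-1 : ℝ) 1) ∧
    range ψ ⊆ closure (range ψ ∩ c0 Γ)

/-- Eberlein: an embedding in a cube with all points in `c₀` -/
def Eberlein (K : Type) [TopologicalSpace K] : Prop :=
  ∃ (Γ : Type) (ψ : K → (Γ → ℝ)), IsEmbedding ψ ∧ (∀ k γ, ψ k γ ∈ Icc (-1 : ℝ) 1) ∧
    range ψ ⊆ c0 Γ

/-- property (F): an embedding in a cube, with index set in the universe `u`, with dense `c₀₀` part -/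
def PropertyF (K : Type) [TopologicalSpace K] : Prop :=
  ∃ (Γ : Type u) (φ : K → (Γ → ℝ)), IsEmbedding φ ∧ (∀ k γ, φ k γ ∈ Icc (-1 : ℝ) 1) ∧
    range φ ⊆ closure (range φ ∩ c00 Γ)

/-- the two descriptions of the dual ball -/
theorem ball_eq (X : Type) [NormedAddCommGroup X] [NormedSpace ℝ X] :
    (WeakDual.toStrongDual ⁻¹' Metric.closedBall (0 : StrongDual ℝ X) 1 : Set (WeakDual ℝ X)) =
      {φ : WeakDual ℝ X | ∀ x : X, |φ x| ≤ ‖x‖} := by
  ext φ
  rw [mem_preimage, mem_closedBall_zero_iff]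
  constructor
  · intro h x
    have h2 := ContinuousLinearMap.le_of_opNorm_le _ h x
    rw [one_mul] at h2
    exact h2
  · intro h
    refine ContinuousLinearMap.opNorm_le_bound _ zero_le_one fun x => ?_
    rw [one_mul]
    exact h x

/-- There is a compact Hausdorff (Eberlein) space `K` such that the dual ball of the
Banach space `C(K)` is an Eberlein compact space, hence semi-Eberlein, but has no homeomorphic
embedding in a cube with dense finitely supported points. -/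
theorem result :
    ∃ (K : Type) (_ : TopologicalSpace K) (_ : CompactSpace K) (_ : T2Space K),
      Eberlein K ∧ Eberlein (DualBall C(K, ℝ)) ∧ SemiEberlein (DualBall C(K, ℝ)) ∧
      ¬ PropertyF.{u} (DualBall C(K, ℝ)) := by
  let e : DualBall C(SemiEb.K ℝ, ℝ) ≃ₜ SemiEb.DB C(SemiEb.K ℝ, ℝ) :=
    Homeomorph.setCongr (ball_eq C(SemiEb.K ℝ, ℝ))
  have hE : Eberlein (DualBall C(SemiEb.K ℝ, ℝ)) := by
    refine ⟨Finset (SemiEb.S ℝ) × Bool, SemiEb.hm ∘ e,
      SemiEb.isEmbedding_hm.comp e.isEmbedding, fun k γ => ?_, ?_⟩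
    · have h := SemiEb.hm_mem (e k) γ
      exact ⟨(by norm_num : (-1 : ℝ) ≤ 0).trans h.1, h.2⟩
    · rintro _ ⟨k, rfl⟩ ε hε
      refine (SemiEb.finite_hm (e k) ε hε).subset fun γ hγ => ?_
      have hγ' : ε < |SemiEb.hm (e k) γ| := hγ
      exact hγ'.le
  have hS : SemiEberlein (DualBall C(SemiEb.K ℝ, ℝ)) := by
    obtain ⟨Γ, ψ, h1, h2, h3⟩ := hE
    exact ⟨Γ, ψ, h1, h2, fun x hx => subset_closure ⟨hx, h3 hx⟩⟩
  have hnot : ∀ (Λ : Type u) (f : DualBall C(SemiEb.K ℝ, ℝ) → (Λ → ℝ)), IsEmbedding f →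
      ¬ Dense {φ | f φ ∈ c00 Λ} := by
    intro Λ f hf hd
    refine SemiEb.notF' Λ (f ∘ e.symm) (hf.comp e.symm.isEmbedding) ?_
    exact hd.preimage e.symm.isOpenMap
  have hK : Eberlein (SemiEb.K ℝ) := by
    have hc : Continuous (fun (k : SemiEb.K ℝ) (s : SemiEb.S ℝ) =>
        (1 / (1 + (SemiEb.lev s : ℝ))) * SemiEb.cf s k) :=
      continuous_pi fun s => continuous_const.mul (SemiEb.cf s).continuous
    have hpos : ∀ s : SemiEb.S ℝ, (0 : ℝ) < 1 / (1 + (SemiEb.lev s : ℝ)) := fun s => by positivity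
    have hle : ∀ s : SemiEb.S ℝ, 1 / (1 + (SemiEb.lev s : ℝ)) ≤ 1 := fun s => by
      rw [div_le_one (by positivity)]
      have : (0 : ℝ) ≤ (SemiEb.lev s : ℝ) := by positivity
      linarith
    have hcf : ∀ (s : SemiEb.S ℝ) (k : SemiEb.K ℝ), 0 ≤ SemiEb.cf s k ∧ SemiEb.cf s k ≤ 1 := by
      intro s k
      rw [SemiEb.cf_apply]
      split_ifs <;> norm_num
    refine ⟨SemiEb.S ℝ, _, (hc.isClosedEmbedding ?_).isEmbedding, ?_, ?_⟩
    · intro k l h
      refine SemiEb.co_injective (funext fun s => ?_)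
      have h1 := mul_left_cancel₀ (hpos s).ne' (congrFun h s)
      rw [SemiEb.cf_apply, SemiEb.cf_apply] at h1
      cases h2 : SemiEb.co k s <;> cases h3 : SemiEb.co l s <;> simp_all
    · intro k s
      obtain ⟨h1, h2⟩ := hcf s k
      have h3 : 0 ≤ (1 / (1 + (SemiEb.lev s : ℝ))) * SemiEb.cf s k := mul_nonneg (hpos s).le h1
      exact ⟨by linarith, mul_le_one₀ (hle s) h1 h2⟩
    · rintro _ ⟨k, rfl⟩ ε hε
      obtain ⟨n, hn⟩ := exists_nat_gt (1 / ε)
      refine (SemiEb.finite_level k n).subset fun s hs => ?_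
      have hs' : ε < |(1 / (1 + (SemiEb.lev s : ℝ))) * SemiEb.cf s k| := hs
      obtain ⟨h1, h2⟩ := hcf s k
      rw [abs_of_nonneg (mul_nonneg (hpos s).le h1)] at hs'
      have h4 : SemiEb.co k s = true := by
        by_contra hcon
        rw [SemiEb.cf_apply, if_neg hcon, mul_zero] at hs'
        linarith
      refine ⟨h4, ?_⟩
      have h5 : ε < 1 / (1 + (SemiEb.lev s : ℝ)) :=
        lt_of_lt_of_le hs' (mul_le_of_le_one_right (hpos s).le h2)
      rw [lt_div_iff₀ (by positivity)] at h5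
      have h6 : (1 : ℝ) + (SemiEb.lev s : ℝ) < 1 / ε := by
        rw [lt_div_iff₀ hε]
        linarith
      have h7 : ((SemiEb.lev s : ℕ) : ℝ) < n := by linarith
      exact_mod_cast h7.le
  refine ⟨SemiEb.K ℝ, inferInstance, inferInstance, inferInstance, hK, hE, hS, ?_⟩
  rintro ⟨Γ, φ, h1, -, h3⟩
  refine hnot Γ φ h1 ?_
  rw [dense_iff_closure_eq, h1.isInducing.closure_eq_preimage_closure_image]
  have h4 : φ '' {x | φ x ∈ c00 Γ} = range φ ∩ c00 Γ := by
    ext y
    constructor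
    · rintro ⟨x, hx, rfl⟩
      exact ⟨⟨x, rfl⟩, hx⟩
    · rintro ⟨⟨x, rfl⟩, hx⟩
      exact ⟨x, hx, rfl⟩
  rw [h4, eq_univ_iff_forall]
  exact fun x => h3 ⟨x, rfl⟩

end Pool.Agent.Results.MP_e9afb0_an.EberleinDualBall
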